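import Pool.Agent.Y765.FC.Gap

/-!
# The chain of vertices on a perturbed parabola
-/

set_option autoImplicit false

namespace Pool.Agent.Y765.FC

open Pool.Agent.H858FC Set

/-- convexity defect of a triple of the perturbed parabola `j ↦ j² + δ j` -/
def DD (δ : ℤ → ℝ) (p r q : ℤ) : ℝ :=
  ((r : ℝ) - p) * ((q : ℝ) - r) * ((q : ℝ) - p) + ((r : ℝ) - p) * δ q + ((q : ℝ) - r) * δ p
    - ((q : ℝ) - p) * δ r

/-- the combinatorial conditions for the perturbation -/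
structure Chain (L : ℤ) (δ : ℤ → ℝ) : Prop where
  L4 : 4 ≤ L
  nn : ∀ j, 0 ≤ j → j ≤ L → 0 ≤ δ j
  le : ∀ j, 0 ≤ j → j ≤ L → δ j ≤ 7 / 2
  z0 : δ 0 = 0
  zL : δ L = 0
  gen : ∀ p r q, 0 ≤ p → p < r → r < q → q ≤ L → DD δ p r q ≠ 0
  cov : ∀ g, 0 ≤ g → g < L → ∃ p r q, 0 ≤ p ∧ p ≤ g ∧ g < q ∧ q ≤ L ∧ p < r ∧ r < q ∧
    δ p = 0 ∧ δ q = 0 ∧ DD δ p r q < 0
  crit : ∀ w, 0 ≤ w → w < L → ∃ g, 0 ≤ g ∧ g < L ∧ ∀ p r q, 0 ≤ p → p ≤ g → g < q → q ≤ L →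
    p < r → r < q → DD δ p r q ≤ 0 → w = p ∨ w = r ∨ w = q

/-- the large constant -/
noncomputable def cc (L : ℤ) : ℝ := 4 * ((L : ℝ) + 2) ^ 4

/-- the heights -/
noncomputable def hh (L : ℤ) (δ : ℤ → ℝ) (j : ℤ) : ℝ :=
  if j = -1 then 4 * cc L + 4
  else if j = L + 1 then (cc L + ((L : ℝ) + 3 / 4) * (L : ℝ) ^ 2 + 1) / ((L : ℝ) - 1 / 4)
  else (j : ℝ) ^ 2 + δ j

noncomputable def cv (L : ℤ) : E3 := !₂[(-1 : ℝ), -1 / 4, cc L]

noncomputable def pv (L : ℤ) (δ : ℤ → ℝ) (j : ℤ) : E3 := !₂[(1 : ℝ), (j : ℝ), hh L δ j]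

@[simp] theorem cv0 (L : ℤ) : cv L 0 = -1 := rfl
@[simp] theorem cv1 (L : ℤ) : cv L 1 = -1 / 4 := rfl
@[simp] theorem cv2 (L : ℤ) : cv L 2 = cc L := rfl
@[simp] theorem pv0 (L : ℤ) (δ : ℤ → ℝ) (j : ℤ) : pv L δ j 0 = 1 := rfl
@[simp] theorem pv1 (L : ℤ) (δ : ℤ → ℝ) (j : ℤ) : pv L δ j 1 = (j : ℝ) := rfl
@[simp] theorem pv2 (L : ℤ) (δ : ℤ → ℝ) (j : ℤ) : pv L δ j 2 = hh L δ j := rfl

variable {L : ℤ} {δ : ℤ → ℝ}

theorem dt_ppp (p r q : ℤ) : dt (pv L δ p) (pv L δ r) (pv L δ q) =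
    ((r : ℝ) - p) * (hh L δ q - hh L δ p) - ((q : ℝ) - p) * (hh L δ r - hh L δ p) := by
  simp only [dt, pv0, pv1, pv2]; ring

theorem dt_ppc (p r : ℤ) : dt (pv L δ p) (pv L δ r) (cv L) =
    cc L * ((r : ℝ) - p) - ((p : ℝ) - 1 / 4) * hh L δ r + ((r : ℝ) - 1 / 4) * hh L δ p := by
  simp only [dt, pv0, pv1, pv2, cv0, cv1, cv2]; ring

theorem cr_pp (p r : ℤ) : cr (pv L δ p) (pv L δ r) = (r : ℝ) - p := by
  simp only [cr, pv0, pv1]; ring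

theorem cr_pc (p : ℤ) : cr (pv L δ p) (cv L) = (p : ℝ) - 1 / 4 := by
  simp only [cr, pv0, pv1, cv0, cv1]; ring

theorem cr_cp (p : ℤ) : cr (cv L) (pv L δ p) = 1 / 4 - (p : ℝ) := by
  simp only [cr, pv0, pv1, cv0, cv1]; ring

theorem hh_left : hh L δ (-1) = 4 * cc L + 4 := by
  unfold hh; rw [if_pos rfl]

namespace Chain

variable (h : Chain L δ)

include h

theorem Lr : (4 : ℝ) ≤ (L : ℝ) := by exact_mod_cast h.L4

theorem hh_right : ((L : ℝ) - 1 / 4) * hh L δ (L + 1) =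
    cc L + ((L : ℝ) + 3 / 4) * (L : ℝ) ^ 2 + 1 := by
  have hL := h.L4
  have hLr := h.Lr
  have h1 : ¬ (L + 1 = -1) := by omega
  unfold hh
  rw [if_neg h1, if_pos rfl]
  have : (L : ℝ) - 1 / 4 ≠ 0 := by linarith
  rw [← mul_div_assoc, mul_div_cancel_left₀ _ this]

theorem hh_mid {j : ℤ} (h0 : 0 ≤ j) (h1 : j ≤ L) : hh L δ j = (j : ℝ) ^ 2 + δ j := by
  unfold hh
  rw [if_neg (by omega), if_neg (by omega)]

theorem cc_big : 64 * ((L : ℝ) + 2) ^ 2 ≤ cc L ∧ 4 * ((L : ℝ) + 2) ^ 3 * (L + 2) ≤ cc L ∧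
    0 < cc L ∧ 10 * ((L : ℝ) + 2) * ((L : ℝ) ^ 2 + 7 / 2) ≤ cc L := by
  have hLr := h.Lr
  have e : cc L = 4 * ((L : ℝ) + 2) ^ 4 := rfl
  have h2 : (36 : ℝ) ≤ ((L : ℝ) + 2) ^ 2 := by nlinarith
  refine ⟨?_, ?_, ?_, ?_⟩
  · rw [e]
    nlinarith [mul_nonneg (sq_nonneg ((L : ℝ) + 2)) (sub_nonneg.2 h2)]
  · rw [e]; apply le_of_eq; ring
  · rw [e]; positivity
  · rw [e]
    have h3 : 10 * ((L : ℝ) ^ 2 + 7 / 2) ≤ 4 * ((L : ℝ) + 2) ^ 3 := by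
      nlinarith [mul_nonneg (sub_nonneg.2 hLr) (sq_nonneg (L : ℝ)), sq_nonneg (L : ℝ)]
    have h4 : (0 : ℝ) ≤ (L : ℝ) + 2 := by linarith
    calc 10 * ((L : ℝ) + 2) * ((L : ℝ) ^ 2 + 7 / 2)
        = (10 * ((L : ℝ) ^ 2 + 7 / 2)) * ((L : ℝ) + 2) := by ring
      _ ≤ (4 * ((L : ℝ) + 2) ^ 3) * ((L : ℝ) + 2) := mul_le_mul_of_nonneg_right h3 h4
      _ = 4 * ((L : ℝ) + 2) ^ 4 := by ring

theorem mid_nonneg {j : ℤ} (h0 : 0 ≤ j) (h1 : j ≤ L) : 0 ≤ hh L δ j := by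
  rw [h.hh_mid h0 h1]
  have := h.nn j h0 h1
  positivity

theorem mid_le {j : ℤ} (h0 : 0 ≤ j) (h1 : j ≤ L) : hh L δ j ≤ (L : ℝ) ^ 2 + 7 / 2 := by
  rw [h.hh_mid h0 h1]
  have := h.le j h0 h1
  have h2 : (0 : ℝ) ≤ j := by exact_mod_cast h0
  have h3 : (j : ℝ) ≤ L := by exact_mod_cast h1
  have h4 : (j : ℝ) ^ 2 ≤ (L : ℝ) ^ 2 := by nlinarith
  linarith

theorem right_ge : 4 * ((L : ℝ) + 2) ^ 3 ≤ hh L δ (L + 1) := by
  have hLr := h.Lr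
  have e := h.hh_right
  obtain ⟨-, c2, -, -⟩ := h.cc_big
  have h0 : 0 < (L : ℝ) - 1 / 4 := by linarith
  have h1 : 0 ≤ ((L : ℝ) + 3 / 4) * (L : ℝ) ^ 2 := by positivity
  have h2 : ((L : ℝ) - 1 / 4) * (4 * ((L : ℝ) + 2) ^ 3) ≤
      ((L : ℝ) - 1 / 4) * hh L δ (L + 1) := by
    rw [e]
    have h3 : (0 : ℝ) ≤ 4 * ((L : ℝ) + 2) ^ 3 := by positivity
    nlinarith
  exact le_of_mul_le_mul_left h2 h0

theorem right_big : 2 * ((L : ℝ) + 2) * ((L : ℝ) ^ 2 + 7 / 2) < hh L δ (L + 1) := by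
  have hLr := h.Lr
  refine lt_of_lt_of_le ?_ h.right_ge
  have h3 : 2 * ((L : ℝ) ^ 2 + 7 / 2) < 4 * ((L : ℝ) + 2) ^ 2 := by nlinarith
  have h4 : (0 : ℝ) < (L : ℝ) + 2 := by linarith
  calc 2 * ((L : ℝ) + 2) * ((L : ℝ) ^ 2 + 7 / 2)
      = (2 * ((L : ℝ) ^ 2 + 7 / 2)) * ((L : ℝ) + 2) := by ring
    _ < (4 * ((L : ℝ) + 2) ^ 2) * ((L : ℝ) + 2) := mul_lt_mul_of_pos_right h3 h4
    _ = 4 * ((L : ℝ) + 2) ^ 3 := by ring

theorem hh_nonneg {j : ℤ} (h0 : -1 ≤ j) (h1 : j ≤ L + 1) : 0 ≤ hh L δ j := by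
  have hLr := h.Lr
  rcases eq_or_lt_of_le h0 with rfl | h0
  · rw [hh_left]
    have := h.cc_big.2.2.1
    positivity
  rcases eq_or_lt_of_le h1 with rfl | h1
  · refine le_trans ?_ h.right_ge
    positivity
  · exact h.mid_nonneg (by omega) (by omega)

/-- chain triples -/
theorem dt_mid {p r q : ℤ} (h0 : 0 ≤ p) (h1 : p < r) (h2 : r < q) (h3 : q ≤ L) :
    dt (pv L δ p) (pv L δ r) (pv L δ q) = DD δ p r q := by
  rw [dt_ppp, h.hh_mid (j := p) (by omega) (by omega), h.hh_mid (j := r) (by omega) (by omega),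
    h.hh_mid (j := q) (by omega) (by omega)]
  unfold DD
  ring

/-- triples with the left point -/
theorem dt_left {r q : ℤ} (h0 : 0 ≤ r) (h1 : r < q) (h2 : q ≤ L + 1) :
    0 < dt (pv L δ (-1)) (pv L δ r) (pv L δ q) := by
  have hLr := h.Lr
  rw [dt_ppp, hh_left]
  have e1 := h.mid_le h0 (by omega)
  have e2 := h.mid_nonneg h0 (by omega)
  have e3 := h.hh_nonneg (j := q) (by omega) h2
  obtain ⟨-, -, c3, c4⟩ := h.cc_big
  have k0 : (0 : ℝ) ≤ r := by exact_mod_cast h0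
  have k1 : (r : ℝ) + 1 ≤ q := by exact_mod_cast h1
  have k2 : (q : ℝ) ≤ L + 1 := by exact_mod_cast h2
  push_cast
  have m1 : ((q : ℝ) + 1) * hh L δ r ≤ ((L : ℝ) + 2) * ((L : ℝ) ^ 2 + 7 / 2) := by
    apply mul_le_mul (by linarith) e1 e2 (by linarith)
  have m2 : 0 ≤ ((r : ℝ) + 1) * hh L δ q := by positivity
  have m3 : 4 * cc L + 4 ≤ ((q : ℝ) - r) * (4 * cc L + 4) := by
    have : (1 : ℝ) ≤ (q : ℝ) - r := by linarith
    nlinarith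
  nlinarith

/-- triples with the right point -/
theorem dt_right {p r : ℤ} (h0 : 0 ≤ p) (h1 : p < r) (h2 : r ≤ L) :
    0 < dt (pv L δ p) (pv L δ r) (pv L δ (L + 1)) := by
  have hLr := h.Lr
  rw [dt_ppp]
  have e1 := h.mid_le (j := r) (by omega) h2
  have e2 := h.mid_nonneg (j := r) (by omega) h2
  have e3 := h.mid_nonneg (j := p) h0 (by omega)
  have c1 := h.right_big
  have k0 : (0 : ℝ) ≤ p := by exact_mod_cast h0
  have k1 : (p : ℝ) + 1 ≤ r := by exact_mod_cast h1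
  have k2 : (r : ℝ) ≤ L := by exact_mod_cast h2
  push_cast
  have m1 : ((L : ℝ) + 1 - p) * hh L δ r ≤ ((L : ℝ) + 2) * ((L : ℝ) ^ 2 + 7 / 2) := by
    apply mul_le_mul (by linarith) e1 e2 (by linarith)
  have m2 : 0 ≤ ((L : ℝ) + 1 - r) * hh L δ p := by
    apply mul_nonneg (by linarith) e3
  have hp : 0 < hh L δ (L + 1) := lt_of_le_of_lt (by positivity) c1
  have m3 : hh L δ (L + 1) ≤ ((r : ℝ) - p) * hh L δ (L + 1) := by
    have : (1 : ℝ) ≤ (r : ℝ) - p := by linarith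
    nlinarith
  have m4 : 0 < ((L : ℝ) + 2) * ((L : ℝ) ^ 2 + 7 / 2) := by positivity
  nlinarith

/-- chain pairs and `C`, right side -/
theorem dtc_mid {p r : ℤ} (h0 : 1 ≤ p) (h1 : p < r) (h2 : r ≤ L) :
    0 < dt (pv L δ p) (pv L δ r) (cv L) := by
  have hLr := h.Lr
  rw [dt_ppc]
  have e1 := h.mid_le (j := r) (by omega) h2
  have e2 := h.mid_nonneg (j := r) (by omega) h2
  have e3 := h.mid_nonneg (j := p) (by omega) (by omega)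
  obtain ⟨-, -, c3, c4⟩ := h.cc_big
  have k0 : (1 : ℝ) ≤ p := by exact_mod_cast h0
  have k1 : (p : ℝ) + 1 ≤ r := by exact_mod_cast h1
  have k2 : (r : ℝ) ≤ L := by exact_mod_cast h2
  have m1 : ((p : ℝ) - 1 / 4) * hh L δ r ≤ ((L : ℝ) + 2) * ((L : ℝ) ^ 2 + 7 / 2) := by
    apply mul_le_mul (by linarith) e1 e2 (by linarith)
  have m2 : 0 ≤ ((r : ℝ) - 1 / 4) * hh L δ p := by
    apply mul_nonneg (by linarith) e3
  have m3 : cc L ≤ cc L * ((r : ℝ) - p) := by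
    have : (1 : ℝ) ≤ (r : ℝ) - p := by linarith
    nlinarith
  have m4 : 0 < ((L : ℝ) + 2) * ((L : ℝ) ^ 2 + 7 / 2) := by positivity
  nlinarith

theorem dtc_right {p : ℤ} (h0 : 1 ≤ p) (h1 : p < L) :
    0 < dt (pv L δ p) (pv L δ (L + 1)) (cv L) := by
  have hLr := h.Lr
  rw [dt_ppc]
  have e3 := h.mid_nonneg (j := p) (by omega) (by omega)
  have e := h.hh_right
  obtain ⟨-, -, c3, c4⟩ := h.cc_big
  have k0 : (1 : ℝ) ≤ p := by exact_mod_cast h0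
  have k1 : (p : ℝ) + 1 ≤ L := by exact_mod_cast h1
  have hp := h.hh_nonneg (j := L + 1) (by omega) le_rfl
  have m1 : ((p : ℝ) - 1 / 4) * hh L δ (L + 1) ≤ ((L : ℝ) - 1 / 4) * hh L δ (L + 1) := by
    apply mul_le_mul_of_nonneg_right (by linarith) hp
  rw [e] at m1
  push_cast
  have m2 : 0 ≤ ((L : ℝ) + 1 - 1 / 4) * hh L δ p := by
    apply mul_nonneg (by linarith) e3
  have m3 : cc L * 2 ≤ cc L * ((L : ℝ) + 1 - p) := by
    apply mul_le_mul_of_nonneg_left (by linarith) c3.le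
  have m4 : ((L : ℝ) + 3 / 4) * (L : ℝ) ^ 2 + 1 ≤ ((L : ℝ) + 2) * ((L : ℝ) ^ 2 + 7 / 2) := by
    nlinarith [sq_nonneg (L : ℝ)]
  have m5 : 0 < ((L : ℝ) + 2) * ((L : ℝ) ^ 2 + 7 / 2) := by positivity
  nlinarith

theorem dtc_end : dt (pv L δ L) (pv L δ (L + 1)) (cv L) = -1 := by
  have hL := h.L4
  rw [dt_ppc, h.hh_right, h.hh_mid (j := L) (by omega) le_rfl, h.zL]
  push_cast
  ring

/-- pairs on the two sides of `C` -/
theorem dtc_across {p r : ℤ} (h0 : -1 ≤ p) (h1 : p ≤ 0) (h2 : 1 ≤ r) (h3 : r ≤ L + 1) :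
    0 < dt (pv L δ p) (pv L δ r) (cv L) := by
  have hL := h.L4
  rw [dt_ppc]
  have e1 := h.hh_nonneg (j := p) h0 (by omega)
  have e2 := h.hh_nonneg (j := r) (by omega) h3
  obtain ⟨-, -, c3, -⟩ := h.cc_big
  have k1 : (p : ℝ) ≤ 0 := by exact_mod_cast h1
  have k2 : (1 : ℝ) ≤ r := by exact_mod_cast h2
  have m1 : 0 ≤ (1 / 4 - (p : ℝ)) * hh L δ r := by
    apply mul_nonneg (by linarith) e2
  have m2 : 0 ≤ ((r : ℝ) - 1 / 4) * hh L δ p := by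
    apply mul_nonneg (by linarith) e1
  have m3 : 0 < cc L * ((r : ℝ) - p) := by
    apply mul_pos c3; linarith
  nlinarith

theorem dtc_start : dt (pv L δ (-1)) (pv L δ 0) (cv L) = -1 := by
  have hL := h.L4
  rw [dt_ppc, hh_left, h.hh_mid (j := 0) le_rfl (by omega), h.z0]
  push_cast
  ring

/-- all triples of parabola points are in general position -/
theorem gen_ppp {p r q : ℤ} (h0 : -1 ≤ p) (h1 : p < r) (h2 : r < q) (h3 : q ≤ L + 1) :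
    dt (pv L δ p) (pv L δ r) (pv L δ q) ≠ 0 := by
  rcases eq_or_lt_of_le h0 with rfl | h0
  · exact (h.dt_left (by omega) h2 h3).ne'
  rcases eq_or_lt_of_le h3 with rfl | h3
  · exact (h.dt_right (by omega) h1 (by omega)).ne'
  · rw [h.dt_mid (by omega) h1 h2 (by omega)]
    exact h.gen p r q (by omega) h1 h2 (by omega)

theorem gen_ppc {p r : ℤ} (h0 : -1 ≤ p) (h1 : p < r) (h2 : r ≤ L + 1) :
    dt (pv L δ p) (pv L δ r) (cv L) ≠ 0 := by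
  rcases lt_or_ge p 1 with hp | hp
  · rcases lt_or_ge r 1 with hr | hr
    · have e1 : p = -1 := by omega
      have e2 : r = 0 := by omega
      subst e1; subst e2
      rw [h.dtc_start]; norm_num
    · exact (h.dtc_across h0 (by omega) hr h2).ne'
  · rcases eq_or_lt_of_le h2 with rfl | h2
    · rcases eq_or_lt_of_le (show p ≤ L by omega) with rfl | h4
      · rw [h.dtc_end]; norm_num
      · exact (h.dtc_right hp h4).ne'
    · exact (h.dtc_mid hp h1 (by omega)).ne'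

end Chain

end Pool.Agent.Y765.FC
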