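import Pool.Agent.Y765.FC.Chain

/-!
# Every direction is covered
-/

set_option autoImplicit false

namespace Pool.Agent.Y765.FC

open Pool.Agent.H858FC Set

/-- `x` is beyond exactly the edge `ab` of the triangle `abc`, and `v` is in the triangle -/
def Cov (a b c x v : E3) : Prop :=
  0 < dt a b c ∧ dt a b x < 0 ∧ 0 < dt b c x ∧ 0 < dt c a x ∧
    0 ≤ dt a b v ∧ 0 ≤ dt b c v ∧ 0 ≤ dt c a v

theorem dt_e3 (a b : E3) : dt a b e3 = cr a b := by
  simp only [dt, cr, e30, e31, e32]; ring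

/-- a vector of a sector in the basis `p, q, e3` -/
theorem sector_basis (p q v X Y : E3) :
    cr p q * dt X Y v = cr v q * dt X Y p + cr p v * dt X Y q + dt p q v * dt X Y e3 := by
  have e := congrArg (dt X Y) (cramer p q e3 v)
  rw [dt_add, dt_add, dt_smul, dt_smul, dt_smul, dt_smul] at e
  have e1 : dt p q e3 = cr p q := dt_e3 p q
  have e2 : dt q e3 v = cr v q := by simp only [dt, cr, e30, e31, e32]; ring
  have e4 : dt e3 p v = cr p v := by simp only [dt, cr, e30, e31, e32]; ring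
  rw [e1, e2, e4] at e
  exact e

theorem sector_nonneg {p q v X Y : E3} (h0 : 0 < cr p q) (h1 : 0 ≤ cr v q) (h2 : 0 ≤ cr p v)
    (h3 : 0 ≤ dt p q v) (a : 0 ≤ dt X Y p) (b : 0 ≤ dt X Y q) (c : 0 ≤ dt X Y e3) :
    0 ≤ dt X Y v := by
  have e := sector_basis p q v X Y
  have : 0 ≤ cr p q * dt X Y v := by rw [e]; positivity
  exact nonneg_of_mul_nonneg_right this h0

/-- the part of a sector below the chord -/
theorem cov_below {p r q v : E3} (h0 : 0 < cr p q) (h1 : 0 < cr p r) (h2 : 0 < cr r q)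
    (h3 : dt p r q < 0) (h4 : 0 ≤ cr p v) (h5 : 0 ≤ cr v q) (h6 : dt p q v ≤ 0) :
    Cov q p uv r v := by
  refine ⟨?_, ?_, ?_, ?_, ?_, ?_, ?_⟩
  · rw [dt_uv_right, cr_swap]; linarith
  · rw [← dt_cyc]; exact h3
  · rw [dt_uv_mid]; exact h1
  · rw [dt_uv_left, cr_swap]; linarith
  · rw [dt_swap]; linarith
  · rw [dt_uv_mid]; exact h4
  · rw [dt_uv_left, cr_swap]; linarith

variable {L : ℤ} {δ : ℤ → ℝ}

namespace Chain

variable (h : Chain L δ)

include h

theorem c0 (p : ℤ) (hp : 0 ≤ p) (hp1 : p ≤ L) : 0 ≤ dt (pv L δ 0) (pv L δ p) (cv L) := by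
  rcases eq_or_lt_of_le hp with rfl | hp
  · simp
  · exact (h.dtc_across (by norm_num) le_rfl hp (by omega)).le

theorem cL (p : ℤ) (hp : 0 ≤ p) (hp1 : p ≤ L) : 0 ≤ dt (pv L δ p) (pv L δ L) (cv L) := by
  have hL := h.L4
  rcases eq_or_lt_of_le hp1 with rfl | hp1
  · simp
  · rcases eq_or_lt_of_le hp with rfl | hp
    · exact (h.dtc_across (by norm_num) le_rfl (by omega) (by omega)).le
    · exact (h.dtc_mid hp hp1 le_rfl).le

theorem cut_pos {q : ℤ} (h1 : 0 < q) (h2 : q < L) (hq : δ q = 0) :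
    0 < dt (pv L δ 0) (pv L δ q) (pv L δ L) := by
  have hL := h.L4
  rw [h.dt_mid le_rfl h1 h2 le_rfl]
  unfold DD
  rw [hq, h.z0, h.zL]
  have k1 : (0 : ℝ) < q := by exact_mod_cast h1
  have k2 : (q : ℝ) < L := by exact_mod_cast h2
  push_cast
  have : 0 < ((q : ℝ) - 0) * ((L : ℝ) - q) * ((L : ℝ) - 0) := by
    apply mul_pos (mul_pos _ _) _ <;> linarith
  linarith

theorem mid2_pos : 0 < dt (pv L δ 0) (pv L δ 2) (pv L δ L) := by
  have hL := h.L4
  have hLr := h.Lr
  rw [h.dt_mid le_rfl (by norm_num) (by omega) le_rfl]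
  unfold DD
  rw [h.z0, h.zL]
  have := h.le 2 (by norm_num) (by omega)
  push_cast
  nlinarith

/-- the region above a chord of the hull -/
theorem cov_T {v : E3} (h1 : 0 ≤ dt (pv L δ 0) (pv L δ L) v)
    (h2 : 0 ≤ dt (pv L δ L) (cv L) v) (h3 : 0 ≤ dt (cv L) (pv L δ 0) v) :
    Cov (pv L δ 0) (pv L δ L) (cv L) (pv L δ 2) v := by
  have hL := h.L4
  refine ⟨h.dtc_across (by norm_num) le_rfl (by omega) (by omega), ?_, ?_, ?_, h1, h2, h3⟩
  · have := h.mid2_pos
    rw [dt_swap'] at this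
    linarith
  · have := h.dtc_mid (p := 2) (r := L) (by norm_num) (by omega) le_rfl
    rw [← dt_cyc] at this
    exact this
  · have := h.dtc_across (p := 0) (r := 2) (by norm_num) le_rfl (by norm_num) (by omega)
    rw [dt_cyc2]
    exact this

theorem cov_chain {p r q : ℤ} (h0 : 0 ≤ p) (h1 : p < r) (h2 : r < q) (h3 : q ≤ L)
    (hp : δ p = 0) (hq : δ q = 0) (hD : DD δ p r q < 0) {v : E3}
    (v1 : 0 ≤ cr (pv L δ p) v) (v2 : 0 ≤ cr v (pv L δ q)) :
    Cov (pv L δ q) (pv L δ p) uv (pv L δ r) v ∨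
    Cov (pv L δ 0) (pv L δ L) (cv L) (pv L δ 2) v ∨
    (0 < q ∧ q < L ∧ Cov (pv L δ L) (pv L δ 0) (pv L δ q) (cv L) v) ∨
    (0 < p ∧ Cov (pv L δ q) (pv L δ 0) (pv L δ p) (cv L) v) := by
  have hL := h.L4
  have k1 : (p : ℝ) < r := by exact_mod_cast h1
  have k2 : (r : ℝ) < q := by exact_mod_cast h2
  have k3 : (q : ℝ) ≤ L := by exact_mod_cast h3
  have k0 : (0 : ℝ) ≤ p := by exact_mod_cast h0
  have hpq : 0 < cr (pv L δ p) (pv L δ q) := by rw [cr_pp]; linarith
  rcases le_or_gt (dt (pv L δ p) (pv L δ q) v) 0 with w | w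
  · left
    refine cov_below hpq ?_ ?_ ?_ v1 v2 w
    · rw [cr_pp]; linarith
    · rw [cr_pp]; linarith
    · rw [h.dt_mid h0 h1 h2 h3]; exact hD
  right
  rcases le_or_gt 0 (dt (pv L δ 0) (pv L δ L) v) with w0 | w0
  · left
    apply h.cov_T w0
    · apply sector_nonneg hpq v2 v1 w.le
      · rw [dt_cyc]; exact h.cL p h0 (by omega)
      · rw [dt_cyc]; exact h.cL q (by omega) h3
      · rw [dt_e3, cr_pc]
        have := h.Lr
        linarith
    · apply sector_nonneg hpq v2 v1 w.le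
      · rw [dt_cyc2]; exact h.c0 p h0 (by omega)
      · rw [dt_cyc2]; exact h.c0 q (by omega) h3
      · rw [dt_e3, cr_cp]; norm_num
  right
  have hq0 : 0 < q := by omega
  rcases le_or_gt 0 (dt (pv L δ 0) (pv L δ q) v) with w1 | w1
  · left
    have hqL : q < L := by
      rcases eq_or_lt_of_le h3 with rfl | h4
      · linarith
      · exact h4
    have kq : (q : ℝ) < L := by exact_mod_cast hqL
    have c1 := h.cut_pos hq0 hqL hq
    refine ⟨hq0, hqL, ?_, ?_, ?_, ?_, ?_, w1, ?_⟩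
    · rw [dt_cyc2]
      exact c1
    · rw [dt_swap]
      have := h.dtc_across (p := 0) (r := L) (by norm_num) le_rfl (by omega) (by omega)
      linarith
    · exact h.dtc_across (p := 0) (r := q) (by norm_num) le_rfl hq0 (by omega)
    · exact h.dtc_mid hq0 hqL le_rfl
    · rw [dt_swap]; linarith
    · apply sector_nonneg hpq v2 v1 w.le
      · rw [dt_cyc]
        rcases eq_or_lt_of_le h0 with rfl | h0'
        · exact c1.le
        · rw [h.dt_mid h0 (by omega) hqL le_rfl]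
          unfold DD
          rw [hp, hq, h.zL]
          have : 0 < ((q : ℝ) - p) * ((L : ℝ) - q) * ((L : ℝ) - p) := by
            apply mul_pos (mul_pos _ _) _ <;> linarith
          linarith
      · simp
      · rw [dt_e3, cr_pp]; linarith
  · right
    have hp0 : 0 < p := by
      rcases eq_or_lt_of_le h0 with rfl | h0'
      · linarith
      · exact h0'
    have kp : (0 : ℝ) < p := by exact_mod_cast hp0
    have c1 : 0 < dt (pv L δ 0) (pv L δ p) (pv L δ q) := by
      rw [h.dt_mid le_rfl hp0 (by omega) h3]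
      unfold DD
      rw [hp, hq, h.z0]
      push_cast
      have : 0 < ((p : ℝ) - 0) * ((q : ℝ) - p) * ((q : ℝ) - 0) := by
        apply mul_pos (mul_pos _ _) _ <;> linarith
      linarith
    refine ⟨hp0, ?_, ?_, ?_, ?_, ?_, ?_, w.le⟩
    · rw [dt_cyc2]
      exact c1
    · rw [dt_swap]
      have := h.dtc_across (p := 0) (r := q) (by norm_num) le_rfl hq0 (by omega)
      linarith
    · exact h.dtc_across (p := 0) (r := p) (by norm_num) le_rfl hp0 (by omega)
    · exact h.dtc_mid hp0 (by omega) h3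
    · rw [dt_swap]; linarith
    · apply sector_nonneg hpq v2 v1 w.le
      · simp
      · exact c1.le
      · rw [dt_e3, cr_pp]; push_cast; linarith

theorem cov_right {v : E3} (v1 : 0 ≤ cr (pv L δ L) v) (v2 : 0 ≤ cr v (cv L)) :
    Cov (cv L) (pv L δ L) uv (pv L δ (L + 1)) v ∨
    Cov (pv L δ 0) (pv L δ L) (cv L) (pv L δ 2) v := by
  have hL := h.L4
  have hLr := h.Lr
  have hpq : 0 < cr (pv L δ L) (cv L) := by rw [cr_pc]; linarith
  rcases le_or_gt (dt (pv L δ L) (cv L) v) 0 with w | w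
  · left
    refine cov_below hpq ?_ ?_ ?_ v1 v2 w
    · rw [cr_pp]; push_cast; linarith
    · rw [cr_pc]; push_cast; linarith
    · rw [h.dtc_end]; norm_num
  right
  apply h.cov_T
  · apply sector_nonneg hpq v2 v1 w.le
    · simp
    · exact (h.dtc_across (by norm_num) le_rfl (by omega) (by omega)).le
    · rw [dt_e3, cr_pp]; push_cast; linarith
  · exact w.le
  · apply sector_nonneg hpq v2 v1 w.le
    · rw [dt_cyc2]
      exact (h.dtc_across (by norm_num) le_rfl (by omega) (by omega)).le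
    · simp
    · rw [dt_e3, cr_cp]; norm_num

theorem cov_left {v : E3} (v1 : 0 ≤ cr (cv L) v) (v2 : 0 ≤ cr v (pv L δ 0)) :
    Cov (pv L δ 0) (cv L) uv (pv L δ (-1)) v ∨
    Cov (pv L δ 0) (pv L δ L) (cv L) (pv L δ 2) v := by
  have hL := h.L4
  have hLr := h.Lr
  have hpq : 0 < cr (cv L) (pv L δ 0) := by rw [cr_cp]; norm_num
  rcases le_or_gt (dt (cv L) (pv L δ 0) v) 0 with w | w
  · left
    refine cov_below hpq ?_ ?_ ?_ v1 v2 w
    · rw [cr_cp]; norm_num
    · rw [cr_pp]; norm_num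
    · rw [dt_cyc2, h.dtc_start]; norm_num
  right
  apply h.cov_T
  · apply sector_nonneg hpq v2 v1 w.le
    · exact (h.dtc_across (by norm_num) le_rfl (by omega) (by omega)).le
    · simp
    · rw [dt_e3, cr_pp]; push_cast; linarith
  · apply sector_nonneg hpq v2 v1 w.le
    · simp
    · rw [dt_cyc]
      exact (h.dtc_across (by norm_num) le_rfl (by omega) (by omega)).le
    · rw [dt_e3, cr_pc]; linarith
  · exact w.le

/-- every vector is in one of the sectors -/
theorem sectors (v : E3) :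
    (0 ≤ cr (pv L δ L) v ∧ 0 ≤ cr v (cv L)) ∨ (0 ≤ cr (cv L) v ∧ 0 ≤ cr v (pv L δ 0)) ∨
    ∃ g : ℤ, 0 ≤ g ∧ g < L ∧ ∀ p q : ℤ, p ≤ g → g < q →
      0 ≤ cr (pv L δ p) v ∧ 0 ≤ cr v (pv L δ q) := by
  have hL := h.L4
  have hLr := h.Lr
  have f : ∀ j : ℤ, cr (pv L δ j) v = v 1 - j * v 0 := by
    intro j; simp only [cr, pv0, pv1]; ring
  have f' : ∀ j : ℤ, cr v (pv L δ j) = j * v 0 - v 1 := by
    intro j; simp only [cr, pv0, pv1]; ring
  have fc : cr (cv L) v = - (v 1 - v 0 / 4) := by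
    simp only [cr, cv0, cv1]; ring
  have fc' : cr v (cv L) = v 1 - v 0 / 4 := by
    simp only [cr, cv0, cv1]; ring
  have main : 0 < v 0 → 0 ≤ v 1 → v 1 < L * v 0 → ∃ g : ℤ, 0 ≤ g ∧ g < L ∧
      ∀ p q : ℤ, p ≤ g → g < q → 0 ≤ cr (pv L δ p) v ∧ 0 ≤ cr v (pv L δ q) := by
    intro k0 k1 k2
    refine ⟨⌊v 1 / v 0⌋, Int.floor_nonneg.2 (by positivity), ?_, ?_⟩
    · rw [Int.floor_lt, div_lt_iff₀ k0]; exact k2
    · intro p q hp hq
      have m1 : (p : ℝ) ≤ v 1 / v 0 := Int.le_floor.1 hp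
      have m2 : v 1 / v 0 < (q : ℝ) := Int.floor_lt.1 hq
      rw [le_div_iff₀ k0] at m1
      rw [div_lt_iff₀ k0] at m2
      rw [f, f']
      constructor <;> linarith
  rcases le_or_gt 0 (v 1 - v 0 / 4) with w | w
  · rcases le_or_gt 0 (v 1 - L * v 0) with w1 | w1
    · left
      rw [f, fc']
      exact ⟨w1, w⟩
    · right; right
      have k0 : 0 < v 0 := by nlinarith
      exact main k0 (by linarith) (by linarith)
  · rcases le_or_gt (v 1) 0 with w1 | w1
    · right; left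
      rw [fc, f']
      push_cast
      constructor <;> linarith
    · right; right
      have k0 : 0 < v 0 := by linarith
      exact main k0 w1.le (by nlinarith)

end Chain

end Pool.Agent.Y765.FC
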