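import Pool.Agent.Y765.FC.Cover

/-!
# The drawings of a chain
-/

set_option autoImplicit false

namespace Pool.Agent.Y765.FC

open Pool.Agent.H858FC Set

/-- no caps across the gap `g`, for the allowed vertices -/
def NCs (L : ℤ) (δ : ℤ → ℝ) (g : ℤ) (A : ℤ → Prop) (AC : Prop) : Prop :=
  (∀ p r q, -1 ≤ p → p < r → r < q → q ≤ L + 1 → A p → A r → A q → p ≤ g → g < q →
    0 < dt (pv L δ p) (pv L δ r) (pv L δ q)) ∧
  (0 ≤ g → AC → ∀ p r, 1 ≤ p → p < r → r ≤ L + 1 → A p → A r → p ≤ g →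
    0 < dt (pv L δ p) (pv L δ r) (cv L)) ∧
  (g < 0 → AC → A (-1) → A 0 → 0 < dt (cv L) (pv L δ (-1)) (pv L δ 0))

variable {L : ℤ} {δ : ℤ → ℝ}

theorem Chain.nc_inner (h : Chain L δ) {w : ℤ} (h0 : 0 ≤ w) (h1 : w < L) :
    ∃ g, NCs L δ g (fun j => j ≠ w) True := by
  obtain ⟨g, g0, g1, hg⟩ := h.crit w h0 h1
  refine ⟨g, ?_, ?_, ?_⟩
  · intro p r q k0 k1 k2 k3 a1 a2 a3 k4 k5
    rcases eq_or_lt_of_le k0 with rfl | k0
    · exact h.dt_left (by omega) k2 k3
    rcases eq_or_lt_of_le k3 with rfl | k3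
    · exact h.dt_right (by omega) k1 (by omega)
    rw [h.dt_mid (by omega) k1 k2 (by omega)]
    by_contra hcon
    rcases hg p r q (by omega) k4 k5 (by omega) k1 k2 (not_lt.1 hcon) with e | e | e
    · exact a1 e.symm
    · exact a2 e.symm
    · exact a3 e.symm
  · intro _ _ p r k0 k1 k2 _ _ k4
    rcases eq_or_lt_of_le k2 with rfl | k2
    · exact h.dtc_right k0 (by omega)
    · exact h.dtc_mid k0 k1 (by omega)
  · intro hneg; omega

theorem Chain.nc_pos_L (h : Chain L δ) (A : ℤ → Prop) (p r q : ℤ) (k0 : -1 ≤ p) (k1 : p < r)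
    (k2 : r < q) (k3 : q ≤ L + 1) (_ : A p) (k5 : L < q) :
    0 < dt (pv L δ p) (pv L δ r) (pv L δ q) := by
  rcases eq_or_lt_of_le k0 with rfl | k0
  · exact h.dt_left (by omega) k2 k3
  have : q = L + 1 := by omega
  subst this
  exact h.dt_right (by omega) k1 (by omega)

theorem Chain.nc_last (h : Chain L δ) : NCs L δ L (fun j => j ≠ L) True := by
  have hL := h.L4
  refine ⟨?_, ?_, ?_⟩
  · intro p r q k0 k1 k2 k3 a1 _ _ _ k5
    exact h.nc_pos_L (fun j => j ≠ L) p r q k0 k1 k2 k3 a1 k5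
  · intro _ _ p r k0 k1 k2 a1 _ k4
    rcases eq_or_lt_of_le k2 with rfl | k2
    · exact h.dtc_right k0 (lt_of_le_of_ne k4 a1)
    · exact h.dtc_mid k0 k1 (by omega)
  · intro hneg; omega

theorem Chain.nc_right (h : Chain L δ) : NCs L δ L (fun j => j ≠ L + 1) True := by
  have hL := h.L4
  refine ⟨?_, ?_, ?_⟩
  · intro p r q k0 k1 k2 k3 a1 _ _ _ k5
    exact h.nc_pos_L (fun j => j ≠ L + 1) p r q k0 k1 k2 k3 a1 k5
  · intro _ _ p r k0 k1 k2 _ a2 k4
    have : r ≠ L + 1 := a2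
    exact h.dtc_mid k0 k1 (by omega)
  · intro hneg; omega

theorem Chain.nc_C (h : Chain L δ) : NCs L δ L (fun _ => True) False := by
  refine ⟨?_, ?_, ?_⟩
  · intro p r q k0 k1 k2 k3 a1 _ _ _ k5
    exact h.nc_pos_L (fun _ => True) p r q k0 k1 k2 k3 a1 k5
  · intro _ hf; exact hf.elim
  · intro _ hf; exact hf.elim

theorem nc_left : NCs L δ (-1) (fun j => j ≠ -1) True := by
  refine ⟨?_, ?_, ?_⟩
  · intro p r q k0 k1 k2 k3 a1 _ _ k4 _
    exact absurd (by omega : p = -1) a1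
  · intro hneg; omega
  · intro _ _ a; exact absurd rfl a

theorem Chain.nc_all (h : Chain L δ) {w : ℤ} (h0 : -1 ≤ w) (h1 : w ≤ L + 1) :
    ∃ g, NCs L δ g (fun j => j ≠ w) True := by
  rcases eq_or_lt_of_le h0 with rfl | h0
  · exact ⟨-1, nc_left⟩
  rcases eq_or_lt_of_le h1 with rfl | h1
  · exact ⟨L, h.nc_right⟩
  rcases eq_or_lt_of_le (show w ≤ L by omega) with rfl | h2
  · exact ⟨w, h.nc_last⟩
  · exact h.nc_inner (by omega) h2

/-- the vertices: the hub, the vertex `C` and the parabola points -/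
noncomputable def PP (N : ℕ) (δ : ℤ → ℝ) (k : Fin (N + 5)) : E3 :=
  if (k : ℕ) = 0 then uv else if (k : ℕ) = 1 then cv N else pv N δ ((k : ℤ) - 3)

variable {N : ℕ}

theorem PP_cases (k : Fin (N + 5)) :
    ((k : ℕ) = 0 ∧ PP N δ k = uv) ∨ ((k : ℕ) = 1 ∧ PP N δ k = cv N) ∨
    ∃ j : ℤ, -1 ≤ j ∧ j ≤ N + 1 ∧ (k : ℤ) = j + 3 ∧ PP N δ k = pv N δ j := by
  by_cases h0 : (k : ℕ) = 0
  · left; exact ⟨h0, by unfold PP; rw [if_pos h0]⟩
  by_cases h1 : (k : ℕ) = 1
  · right; left; exact ⟨h1, by unfold PP; rw [if_neg h0, if_pos h1]⟩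
  · right; right
    refine ⟨(k : ℤ) - 3, by omega, by omega, by ring, ?_⟩
    unfold PP
    rw [if_neg h0, if_neg h1]

theorem PP_U : ∃ k : Fin (N + 5), PP N δ k = uv := ⟨⟨0, by omega⟩, by unfold PP; rw [if_pos rfl]⟩

theorem PP_C : ∃ k : Fin (N + 5), PP N δ k = cv N := by
  refine ⟨⟨1, by omega⟩, ?_⟩
  unfold PP
  rw [if_neg (by simp), if_pos rfl]

theorem PP_P (j : ℤ) (h0 : -1 ≤ j) (h1 : j ≤ N + 1) : ∃ k : Fin (N + 5), PP N δ k = pv N δ j := by
  refine ⟨⟨(j + 3).toNat, by omega⟩, ?_⟩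
  have e : (((j + 3).toNat : ℕ) : ℤ) = j + 3 := Int.toNat_of_nonneg (by omega)
  unfold PP
  rw [if_neg (by simp only; omega), if_neg (by simp only; omega)]
  simp only [e]
  congr 1
  ring

theorem uv_ne_cv : cv L ≠ uv := by
  intro e
  have := congrArg (fun v : E3 => v 0) e
  simp at this

theorem uv_ne_pv (j : ℤ) : pv L δ j ≠ uv := by
  intro e
  have := congrArg (fun v : E3 => v 0) e
  simp at this

theorem int_quarter (j : ℤ) : (j : ℝ) - 1 / 4 ≠ 0 := by
  intro h
  have h2 : ((4 * j : ℤ) : ℝ) = ((1 : ℤ) : ℝ) := by push_cast; linarith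
  have h3 : 4 * j = 1 := by exact_mod_cast h2
  omega

theorem int_half (g j : ℤ) : (g : ℝ) + 1 / 2 - j ≠ 0 := by
  intro h
  have h2 : ((2 * g + 1 : ℤ) : ℝ) = ((2 * j : ℤ) : ℝ) := by push_cast; linarith
  have h3 : 2 * g + 1 = 2 * j := by exact_mod_cast h2
  omega

theorem gen_sorted (h : Chain N δ) {a b c : Fin (N + 5)} (hab : a < b) (hbc : b < c) :
    dt (PP N δ a) (PP N δ b) (PP N δ c) ≠ 0 := by
  have hab' : (a : ℕ) < b := hab
  have hbc' : (b : ℕ) < c := hbc
  obtain ⟨c0, -⟩ | ⟨c1, -⟩ | ⟨jc, c2, c3, c4, c5⟩ := PP_cases (δ := δ) c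
  · omega
  · omega
  obtain ⟨b0, -⟩ | ⟨b1, b5⟩ | ⟨jb, b2, b3, b4, b5⟩ := PP_cases (δ := δ) b
  · omega
  · obtain ⟨a0, a5⟩ | ⟨a1, -⟩ | ⟨ja, a2, a3, a4, a5⟩ := PP_cases (δ := δ) a
    · rw [a5, b5, c5, dt_uv_left, cr_cp]
      have := int_quarter jc
      intro h0
      apply this; linarith
    · omega
    · omega
  · have hj : jb < jc := by omega
    obtain ⟨a0, a5⟩ | ⟨a1, a5⟩ | ⟨ja, a2, a3, a4, a5⟩ := PP_cases (δ := δ) a
    · rw [a5, b5, c5, dt_uv_left, cr_pp]
      have : (jb : ℝ) < jc := by exact_mod_cast hj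
      intro h0
      linarith
    · rw [a5, b5, c5, dt_cyc2]
      exact h.gen_ppc b2 hj c3
    · rw [a5, b5, c5]
      exact h.gen_ppp a2 (by omega) hj c3

theorem PP_gen (h : Chain N δ) : Gen (PP N δ) := by
  constructor
  · intro a b c hab hac hbc
    rcases lt_or_gt_of_ne hab with h1 | h1 <;> rcases lt_or_gt_of_ne hac with h2 | h2 <;>
      rcases lt_or_gt_of_ne hbc with h3 | h3
    · exact gen_sorted h h1 h3
    · rw [dt_swap']; exact neg_ne_zero.2 (gen_sorted h h2 h3)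
    · exact absurd (h1.trans h3) (not_lt.2 h2.le)
    · have := gen_sorted h h2 h1
      rwa [dt_cyc2] at this
    · rw [dt_swap]; exact neg_ne_zero.2 (gen_sorted h h1 h2)
    · exact absurd (h2.trans h3) (not_lt.2 h1.le)
    · have := gen_sorted h h3 h2
      rwa [dt_cyc] at this
    · have := gen_sorted h h3 h1
      have e : dt (PP N δ a) (PP N δ b) (PP N δ c) =
          - dt (PP N δ c) (PP N δ b) (PP N δ a) := by unfold dt; ring
      rw [e]
      exact neg_ne_zero.2 this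
  · intro a b
    obtain ⟨c, hc⟩ := Finset.exists_mem_notMem_of_card_lt_card (s := {a, b})
      (t := (Finset.univ : Finset (Fin (N + 5))))
      (by
        rw [Finset.card_univ, Fintype.card_fin]
        exact lt_of_le_of_lt Finset.card_le_two (by omega))
    have hc2 := hc.2
    simp only [Finset.mem_insert, Finset.mem_singleton, not_or] at hc2
    exact ⟨c, fun e => hc2.1 e.symm, fun e => hc2.2 e.symm⟩

/-- the drawing -/
noncomputable def DR (h : Chain N δ) : GoodDrawing (Fin (N + 5)) := geo (PP N δ) (PP_gen h)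

theorem DR_hconvex (h : Chain N δ) : (DR h).IsHConvex := geo_isHConvex _

theorem of_cov {n : ℕ} {P : Fin n → E3} {a b c x : Fin n} {v : E3}
    (H : Cov (P a) (P b) (P c) (P x) v) : ∃ a b c x : Fin n, a ≠ b ∧ a ≠ c ∧ b ≠ c ∧ x ≠ c ∧
      0 < dt (P a) (P b) (P c) ∧ dt (P a) (P b) (P x) < 0 ∧ 0 < dt (P b) (P c) (P x) ∧
      0 < dt (P c) (P a) (P x) ∧ 0 ≤ dt (P a) (P b) v ∧ 0 ≤ dt (P b) (P c) v ∧
      0 ≤ dt (P c) (P a) v := by
  obtain ⟨h1, h2, h3, h4, h5, h6, h7⟩ := H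
  refine ⟨a, b, c, x, ?_, ?_, ?_, ?_, h1, h2, h3, h4, h5, h6, h7⟩
  · rintro rfl; simp at h1
  · rintro rfl; simp at h1
  · rintro rfl; simp at h1
  · rintro rfl; simp at h3

theorem DR_not_fconvex (h : Chain N δ) : ¬ (DR h).IsFConvex := by
  have hL := h.L4
  apply geo_not_fconvex (PP_gen h)
  intro v
  obtain ⟨kU, hU⟩ := PP_U (N := N) (δ := δ)
  obtain ⟨kC, hC⟩ := PP_C (N := N) (δ := δ)
  obtain ⟨k0, h0⟩ := PP_P (N := N) (δ := δ) 0 (by omega) (by omega)
  obtain ⟨kL, hLL⟩ := PP_P (N := N) (δ := δ) N (by omega) (by omega)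
  obtain ⟨k2, h2⟩ := PP_P (N := N) (δ := δ) 2 (by omega) (by omega)
  obtain ⟨kr, hr⟩ := PP_P (N := N) (δ := δ) (N + 1) (by omega) (by omega)
  obtain ⟨kl, hl⟩ := PP_P (N := N) (δ := δ) (-1) (by omega) (by omega)
  rcases h.sectors v with ⟨v1, v2⟩ | ⟨v1, v2⟩ | ⟨g, g0, g1, hg⟩
  · rcases h.cov_right v1 v2 with H | H
    · rw [← hC, ← hLL, ← hU, ← hr] at H; exact of_cov H
    · rw [← hC, ← hLL, ← h0, ← h2] at H; exact of_cov H
  · rcases h.cov_left v1 v2 with H | H
    · rw [← hC, ← h0, ← hU, ← hl] at H; exact of_cov H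
    · rw [← hC, ← hLL, ← h0, ← h2] at H; exact of_cov H
  · obtain ⟨p, r, q, p0, pg, gq, qL, pr, rq, dp, dq, D⟩ := h.cov g g0 g1
    obtain ⟨v1, v2⟩ := hg p q pg gq
    obtain ⟨kp, hp⟩ := PP_P (N := N) (δ := δ) p (by omega) (by omega)
    obtain ⟨kr', hr'⟩ := PP_P (N := N) (δ := δ) r (by omega) (by omega)
    obtain ⟨kq, hq⟩ := PP_P (N := N) (δ := δ) q (by omega) (by omega)
    rcases h.cov_chain p0 pr rq qL dp dq D v1 v2 with H | H | ⟨-, -, H⟩ | ⟨-, H⟩
    · rw [← hq, ← hp, ← hU, ← hr'] at H; exact of_cov H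
    · rw [← hC, ← hLL, ← h0, ← h2] at H; exact of_cov H
    · rw [← hLL, ← h0, ← hq, ← hC] at H; exact of_cov H
    · rw [← hq, ← h0, ← hp, ← hC] at H; exact of_cov H

theorem DR_sub (h : Chain N δ) (J : Finset (Fin (N + 5))) (hJ : J ≠ Finset.univ) :
    ((DR h).restrict J).IsFConvex := by
  obtain ⟨w, hw⟩ : ∃ w, w ∉ J := by
    by_contra hcon
    push Not at hcon
    exact hJ (Finset.eq_univ_iff_forall.2 hcon)
  rcases Nat.lt_or_ge J.card 3 with h3 | h3
  · exact small_fconvex _ J w hw (by omega)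
  have hne : ∀ x : J, (x : Fin (N + 5)) ≠ w := fun x e => hw (e ▸ x.2)
  have hgen : Gen (fun v : J => PP N δ v) := by
    constructor
    · intro a b c hab hac hbc
      exact (PP_gen h).gen a b c (fun e => hab (Subtype.ext e)) (fun e => hac (Subtype.ext e))
        (fun e => hbc (Subtype.ext e))
    · intro a b
      have h2 : 2 < Fintype.card J := by
        rw [Fintype.card_coe]; omega
      have h3 : ({a, b} : Finset J).card < Fintype.card J :=
        lt_of_le_of_lt Finset.card_le_two h2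
      obtain ⟨c, hc⟩ := Finset.exists_mem_notMem_of_card_lt_card (s := {a, b}) (t := Finset.univ)
        (by rw [Finset.card_univ]; exact h3)
      have hc2 := hc.2
      simp only [Finset.mem_insert, Finset.mem_singleton, not_or] at hc2
      exact ⟨c, fun e => hc2.1 e.symm, fun e => hc2.2 e.symm⟩
  have hres : (DR h).restrict J = geo (fun v : J => PP N δ v) hgen := rfl
  rw [hres]
  -- the gap
  have hgap : ∃ (g : ℤ) (A : ℤ → Prop) (AC : Prop),
      ((∃ a : J, PP N δ a = uv) → NCs N δ g A AC) ∧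
      (∀ (x : J) (j : ℤ), ((x : Fin (N + 5)) : ℤ) = j + 3 → A j) ∧
      (∀ x : J, ((x : Fin (N + 5)) : ℕ) = 1 → AC) := by
    obtain ⟨w0, w5⟩ | ⟨w1, w5⟩ | ⟨j, w2, w3, w4, w5⟩ := PP_cases (δ := δ) w
    · refine ⟨0, fun _ => True, True, ?_, fun _ _ _ => trivial, fun _ _ => trivial⟩
      rintro ⟨a, ha⟩
      exfalso
      obtain ⟨a0, -⟩ | ⟨a1, a5⟩ | ⟨ja, a2, a3, a4, a5⟩ := PP_cases (δ := δ) (a : Fin (N + 5))
      · exact hne a (Fin.ext (by omega))
      · exact uv_ne_cv (a5.symm.trans ha)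
      · exact uv_ne_pv ja (a5.symm.trans ha)
    · refine ⟨N, fun _ => True, False, fun _ => h.nc_C, fun _ _ _ => trivial, ?_⟩
      intro x hx
      exact hne x (Fin.ext (by omega))
    · obtain ⟨g, hg⟩ := h.nc_all w2 w3
      refine ⟨g, fun i => i ≠ j, True, fun _ => hg, ?_, fun _ _ => trivial⟩
      intro x i hx e
      subst e
      exact hne x (Fin.ext (by omega))
  obtain ⟨g, A, AC, hNC, hA, hAC⟩ := hgap
  have cases' : ∀ x : J, PP N δ x ≠ uv → (((x : Fin (N + 5)) : ℕ) = 1 ∧ PP N δ x = cv N) ∨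
      ∃ j : ℤ, -1 ≤ j ∧ j ≤ N + 1 ∧ ((x : Fin (N + 5)) : ℤ) = j + 3 ∧ PP N δ x = pv N δ j :=
    fun x hx => (PP_cases (δ := δ) (x : Fin (N + 5))).resolve_left (fun e => hx e.2)
  apply fconvex_gap hgen 1 ((g : ℝ) + 1 / 2)
  · intro a
    obtain ⟨-, a5⟩ | ⟨-, a5⟩ | ⟨ja, a2, a3, a4, a5⟩ := PP_cases (δ := δ) (a : Fin (N + 5))
    · left; exact a5
    · right
      simp only [a5, cv2]
      exact h.cc_big.2.2.1.le
    · right
      simp only [a5, pv2]
      exact h.hh_nonneg a2 a3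
  · intro a ha
    simp only at ha ⊢
    obtain ⟨-, a5⟩ | ⟨ja, a2, a3, a4, a5⟩ := cases' a ha
    · rw [a5, cv0, cv1]
      have := int_quarter (-g)
      push_cast at this
      intro h0
      apply this
      linarith
    · rw [a5, pv0, pv1]
      have := int_half g ja
      intro h0
      apply this
      linarith
  · intro a b hab ha hb
    have hab' : (a : Fin (N + 5)) ≠ b := fun e => hab (Subtype.ext e)
    obtain ⟨a1, a5⟩ | ⟨ja, a2, a3, a4, a5⟩ := cases' a ha
    · obtain ⟨b1, b5⟩ | ⟨jb, b2, b3, b4, b5⟩ := cases' b hb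
      · exact absurd (Fin.ext (by omega)) hab'
      · rw [a5, b5, cr_cp]
        have := int_quarter jb
        intro h0
        apply this
        linarith
    · obtain ⟨b1, b5⟩ | ⟨jb, b2, b3, b4, b5⟩ := cases' b hb
      · rw [a5, b5, cr_pc]
        exact int_quarter ja
      · rw [a5, b5, cr_pp]
        intro h0
        have h1 : (jb : ℝ) = ja := by linarith
        have h2 : jb = ja := by exact_mod_cast h1
        exact absurd (Fin.ext (by omega)) hab'
  · intro hex p r q hp hr hq k1 k2 k3 k4 k5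
    obtain ⟨n1, n2, n3⟩ := hNC hex
    obtain ⟨p1, p5⟩ | ⟨jp, p2, p3, p4, p5⟩ := cases' p hp <;>
    obtain ⟨r1, r5⟩ | ⟨jr, r2, r3, r4, r5⟩ := cases' r hr <;>
    obtain ⟨q1, q5⟩ | ⟨jq, q2, q3, q4, q5⟩ := cases' q hq <;>
    rw [p5, r5] at k1 <;> rw [r5, q5] at k2 <;> rw [p5, q5] at k3 <;>
    rw [p5] at k4 <;> rw [q5] at k5 <;> rw [p5, r5, q5]
    · rw [cr_self] at k1; exact absurd k1 (lt_irrefl _)
    · rw [cr_self] at k1; exact absurd k1 (lt_irrefl _)
    · rw [cr_self] at k3; exact absurd k3 (lt_irrefl _)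
    · -- p = C
      rw [cr_cp] at k1 k3
      rw [cr_pp] at k2
      rw [cv0, cv1] at k4
      have e1 : jr < 1 := by
        have : (jr : ℝ) < 1 := by linarith
        exact_mod_cast this
      have e2 : jq < 1 := by
        have : (jq : ℝ) < 1 := by linarith
        exact_mod_cast this
      have e3 : jr < jq := by
        have : (jr : ℝ) < jq := by linarith
        exact_mod_cast this
      have e4 : g < 0 := by
        have : (g : ℝ) < 0 := by linarith
        exact_mod_cast this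
      have f1 : jr = -1 := by omega
      have f2 : jq = 0 := by omega
      subst f1; subst f2
      exact n3 e4 (hAC p p1) (hA r _ r4) (hA q _ q4)
    · rw [cr_self] at k2; exact absurd k2 (lt_irrefl _)
    · -- r = C
      exfalso
      rw [cr_pc] at k1
      rw [cr_cp] at k2
      rw [cr_pp] at k3
      linarith
    · -- q = C
      rw [cr_pp] at k1
      rw [cr_pc] at k2 k3
      rw [pv0, pv1] at k4
      rw [cv0, cv1] at k5
      have e1 : 0 < jp := by
        have : (0 : ℝ) < jp := by linarith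
        exact_mod_cast this
      have e3 : jp < jr := by
        have : (jp : ℝ) < jr := by linarith
        exact_mod_cast this
      have e4 : -1 < g := by
        have : (-1 : ℝ) < g := by linarith
        exact_mod_cast this
      have e5 : jp < g + 1 := by
        have : (jp : ℝ) < g + 1 := by linarith
        exact_mod_cast this
      exact n2 (by omega) (hAC q q1) jp jr (by omega) e3 r3 (hA p _ p4) (hA r _ r4) (by omega)
    · rw [cr_pp] at k1 k2
      rw [pv0, pv1] at k4 k5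
      have e1 : jp < jr := by
        have : (jp : ℝ) < jr := by linarith
        exact_mod_cast this
      have e2 : jr < jq := by
        have : (jr : ℝ) < jq := by linarith
        exact_mod_cast this
      have e5 : jp < g + 1 := by
        have : (jp : ℝ) < g + 1 := by linarith
        exact_mod_cast this
      have e6 : g < jq := by
        have : (g : ℝ) < jq := by linarith
        exact_mod_cast this
      exact n1 jp jr jq p2 e1 e2 q3 (hA p _ p4) (hA r _ r4) (hA q _ q4) (by omega) e6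

end Pool.Agent.Y765.FC
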