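import Pool.Agent.H858FC.GeoConvex

/-!
# Faces at a vertex of a geodesic drawing

A geodesic drawing has a vertex `uv = (0,0,-1)` and all other vertices in the closed upper half
space.  If no cap straddles the horizontal direction `d` then the drawing is f-convex.
-/

set_option autoImplicit false

namespace Pool.Agent.Y765.FC

open Pool.Agent.H858FC Set

/-- horizontal cross product -/
def cr (u v : E3) : ℝ := u 0 * v 1 - u 1 * v 0

/-- the hub -/
noncomputable def uv : E3 := !₂[(0 : ℝ), 0, -1]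

/-- the vertical vector -/
noncomputable def e3 : E3 := !₂[(0 : ℝ), 0, 1]

/-- the test direction -/
noncomputable def yv (g0 g1 Λ : ℝ) : E3 := !₂[g0, g1, -Λ]

@[simp] theorem uv0 : uv 0 = 0 := rfl
@[simp] theorem uv1 : uv 1 = 0 := rfl
@[simp] theorem uv2 : uv 2 = -1 := rfl
@[simp] theorem e30 : e3 0 = 0 := rfl
@[simp] theorem e31 : e3 1 = 0 := rfl
@[simp] theorem e32 : e3 2 = 1 := rfl
@[simp] theorem yv0 (g0 g1 Λ : ℝ) : yv g0 g1 Λ 0 = g0 := rfl
@[simp] theorem yv1 (g0 g1 Λ : ℝ) : yv g0 g1 Λ 1 = g1 := rfl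
@[simp] theorem yv2 (g0 g1 Λ : ℝ) : yv g0 g1 Λ 2 = -Λ := rfl

theorem dt_uv_right (a b : E3) : dt a b uv = - cr a b := by
  simp only [dt, cr, uv0, uv1, uv2]; ring

theorem dt_uv_mid (a b : E3) : dt a uv b = cr a b := by
  simp only [dt, cr, uv0, uv1, uv2]; ring

theorem dt_uv_left (a b : E3) : dt uv a b = - cr a b := by
  simp only [dt, cr, uv0, uv1, uv2]; ring

theorem cr_swap (a b : E3) : cr b a = - cr a b := by unfold cr; ring

theorem cr_self (a : E3) : cr a a = 0 := by unfold cr; ring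

/-- the plane identity for a direction in a sector -/
theorem cr_plane (a b d z : E3) : cr b a * cr d z = cr d a * cr b z + cr b d * cr a z := by
  unfold cr; ring

theorem cr_plane' (a b d z : E3) : cr b a * cr z d = cr d a * cr z b + cr b d * cr z a := by
  unfold cr; ring

variable {V : Type} {P : V → E3}

/-- no two positive signs: at least two of the three are nonpositive, or all are positive -/
def Two (s1 s2 s3 : ℝ) : Prop :=
  (s1 ≤ 0 ∧ s2 ≤ 0) ∨ (s2 ≤ 0 ∧ s3 ≤ 0) ∨ (s3 ≤ 0 ∧ s1 ≤ 0) ∨ (0 < s1 ∧ 0 < s2 ∧ 0 < s3)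

theorem Two.rot {s1 s2 s3 : ℝ} (h : Two s1 s2 s3) : Two s2 s3 s1 := by
  unfold Two at *; tauto

/-- the main case: the third vertex of the triangle is the hub -/
theorem two_hub (h : Gen P) (y : E3) {a b c : V} (hab : a ≠ b) (hac : a ≠ c) (hbc : b ≠ c)
    (hc : P c = uv) (hd : 0 < dt (P a) (P b) (P c)) (h2 : 0 < dt (P b) (P c) y)
    (h3 : 0 < dt (P c) (P a) y)
    (NC : ∀ p r q : V, P p ≠ uv → P r ≠ uv → P q ≠ uv → 0 < cr (P p) (P r) →
      0 < cr (P r) (P q) → 0 < cr (P p) (P q) → 0 < cr (P p) y → 0 < cr y (P q) →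
      0 < dt (P p) (P r) (P q)) (z : V) :
    Two (dt (P a) (P b) (P z)) (dt (P b) (P c) (P z)) (dt (P c) (P a) (P z)) := by
  have inj : ∀ u w : V, u ≠ w → P w = uv → P u ≠ uv := by
    intro u w huw hw hu
    obtain ⟨t, ht1, ht2⟩ := h.three u w
    apply h.gen u w t huw ht1 ht2
    rw [hu, hw]; simp
  have ha := inj a c hac hc
  have hb := inj b c hbc hc
  by_cases hzc : z = c
  · subst hzc
    right; left
    exact ⟨by simp, by simp⟩
  by_cases hza : z = a
  · subst hza
    right; right; left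
    exact ⟨by simp, by simp⟩
  by_cases hzb : z = b
  · subst hzb
    left
    exact ⟨by simp, by simp⟩
  have hz := inj z c hzc hc
  have hg1 : dt (P a) (P b) (P z) ≠ 0 := h.gen a b z hab (Ne.symm hza) (Ne.symm hzb)
  have hba : 0 < cr (P b) (P a) := by
    rw [hc, dt_uv_right] at hd
    rw [cr_swap]; exact hd
  have hbd : 0 < cr (P b) y := by rwa [hc, dt_uv_mid] at h2
  have hda : 0 < cr y (P a) := by
    rw [hc, dt_uv_left] at h3
    rw [cr_swap]; exact h3
  rw [hc, dt_uv_mid, dt_uv_left]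
  unfold Two
  by_contra hcon
  simp only [not_or, not_and, not_le, not_lt] at hcon
  obtain ⟨k1, k2, k3, k4⟩ := hcon
  have e1 := cr_plane (P a) (P b) y (P z)
  have e2 := cr_plane' (P a) (P b) y (P z)
  have sw : cr (P z) (P a) = - cr (P a) (P z) := cr_swap _ _
  have sw2 : cr (P z) (P b) = - cr (P b) (P z) := cr_swap _ _
  rcases lt_or_ge 0 (dt (P a) (P b) (P z)) with s1 | s1
  · rcases lt_or_ge 0 (cr (P b) (P z)) with s2 | s2
    · -- s1, s2 positive: s3 nonpositive
      have s3 := k4 s1 s2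
      by_cases s30 : cr (P a) (P z) = 0
      · -- degenerate
        exfalso
        have := h.gen a z c (Ne.symm hza) hac hzc
        rw [hc, dt_uv_right, s30] at this
        exact this (by simp)
      have s3' : 0 < cr (P a) (P z) := lt_of_le_of_ne (by linarith) (Ne.symm s30)
      have h5 : 0 < cr y (P z) := by
        have : 0 < cr (P b) (P a) * cr y (P z) := by rw [e1]; positivity
        exact pos_of_mul_pos_right this hba.le
      have := NC b a z hb ha hz hba s3' s2 hbd h5
      rw [dt_swap] at this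
      linarith
    · -- s2 nonpositive: s3 positive
      have s3 := k2 s2
      by_cases s20 : cr (P b) (P z) = 0
      · exfalso
        have := h.gen b z c (Ne.symm hzb) hbc hzc
        rw [hc, dt_uv_right, s20] at this
        exact this (by simp)
      have s2' : 0 < cr (P z) (P b) := by
        rw [sw2]
        have : cr (P b) (P z) < 0 := lt_of_le_of_ne s2 s20
        linarith
      have s3' : 0 < cr (P z) (P a) := by rw [sw]; exact s3
      have h5 : 0 < cr (P z) y := by
        have : 0 < cr (P b) (P a) * cr (P z) y := by rw [e2]; positivity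
        exact pos_of_mul_pos_right this hba.le
      have := NC z b a hz hb ha s2' hba s3' h5 hda
      have e : dt (P z) (P b) (P a) = - dt (P a) (P b) (P z) := by unfold dt; ring
      linarith
  · have s2 := k1 s1
    have s3 : 0 < - cr (P a) (P z) := by
      by_contra h6
      exact absurd (k3 (not_lt.1 h6)) (not_lt.2 s1)
    have s3' : 0 < cr (P z) (P a) := by rw [sw]; exact s3
    have := NC b z a hb hz ha s2 s3' hba hbd hda
    have e : dt (P b) (P z) (P a) = dt (P a) (P b) (P z) := by unfold dt; ring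
    linarith

/-- f-convexity from a gap at the hub -/
theorem fconvex_gap [DecidableEq V] [Finite V] (h : Gen P) (g0 g1 : ℝ)
    (hU : ∀ a, P a = uv ∨ 0 ≤ P a 2)
    (hd : ∀ a, P a ≠ uv → P a 0 * g1 - P a 1 * g0 ≠ 0)
    (hcr : ∀ a b, a ≠ b → P a ≠ uv → P b ≠ uv → cr (P a) (P b) ≠ 0)
    (NC : (∃ a, P a = uv) → ∀ p r q : V, P p ≠ uv → P r ≠ uv → P q ≠ uv →
      0 < cr (P p) (P r) → 0 < cr (P r) (P q) → 0 < cr (P p) (P q) →
      0 < P p 0 * g1 - P p 1 * g0 → 0 < g0 * P q 1 - g1 * P q 0 →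
      0 < dt (P p) (P r) (P q)) : (geo P h).IsFConvex := by
  -- choice of the third coordinate
  obtain ⟨Λ, hΛ0, hΛ⟩ := (Set.Ioi_infinite (0 : ℝ)).exists_notMem_finite
    (Set.finite_range (fun ab : V × V =>
      (P ab.1 1 * P ab.2 2 * g0 - P ab.1 2 * P ab.2 1 * g0 - P ab.1 0 * P ab.2 2 * g1
        + P ab.1 2 * P ab.2 0 * g1) / cr (P ab.1) (P ab.2)))
  have hΛ0' : 0 < Λ := hΛ0
  set y : E3 := yv g0 g1 Λ with hy
  have inj : ∀ u w : V, u ≠ w → P w = uv → P u ≠ uv := by
    intro u w huw hw hu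
    obtain ⟨t, ht1, ht2⟩ := h.three u w
    apply h.gen u w t huw ht1 ht2
    rw [hu, hw]; simp
  have hcry : ∀ p : E3, cr p y = p 0 * g1 - p 1 * g0 := by
    intro p; simp only [cr, hy, yv0, yv1]
  have hcry' : ∀ p : E3, cr y p = g0 * p 1 - g1 * p 0 := by
    intro p; simp only [cr, hy, yv0, yv1]
  have key : ∀ a b c : V, a ≠ b → a ≠ c → b ≠ c → 0 < dt (P a) (P b) (P c) →
      0 < dt (P a) (P b) y → 0 < dt (P b) (P c) y → 0 < dt (P c) (P a) y → ∀ z : V,
      Two (dt (P a) (P b) (P z)) (dt (P b) (P c) (P z)) (dt (P c) (P a) (P z)) := by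
    intro a b c hab hac hbc hd0 h1 h2 h3 z
    have NC' : (∃ a, P a = uv) → ∀ p r q : V, P p ≠ uv → P r ≠ uv → P q ≠ uv →
        0 < cr (P p) (P r) → 0 < cr (P r) (P q) → 0 < cr (P p) (P q) → 0 < cr (P p) y →
        0 < cr y (P q) → 0 < dt (P p) (P r) (P q) := by
      intro he p r q hp hr hq k1 k2 k3 k4 k5
      rw [hcry] at k4
      rw [hcry'] at k5
      exact NC he p r q hp hr hq k1 k2 k3 k4 k5
    by_cases hc : P c = uv
    · exact two_hub h y hab hac hbc hc hd0 h2 h3 (NC' ⟨c, hc⟩) z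
    by_cases ha : P a = uv
    · have := two_hub h y hbc (Ne.symm hab) (Ne.symm hac) ha (by rw [dt_cyc]; exact hd0)
        h3 h1 (NC' ⟨a, ha⟩) z
      exact this.rot.rot
    by_cases hb : P b = uv
    · have := two_hub h y (Ne.symm hac) (Ne.symm hbc) hab hb
        (by rw [dt_cyc2]; exact hd0) h1 h2 (NC' ⟨b, hb⟩) z
      exact this.rot
    -- no hub: the third coordinate gives a contradiction
    exfalso
    have e := congrArg (fun v : E3 => v 2) (cramer (P a) (P b) (P c) y)
    simp only [PiLp.add_apply, PiLp.smul_apply, smul_eq_mul, hy, yv2] at e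
    rw [← hy] at e
    have a2 := (hU a).resolve_left ha
    have b2 := (hU b).resolve_left hb
    have c2 := (hU c).resolve_left hc
    have r1 : 0 ≤ dt (P b) (P c) y * P a 2 := by positivity
    have r2 : 0 ≤ dt (P c) (P a) y * P b 2 := by positivity
    have r3 : 0 ≤ dt (P a) (P b) y * P c 2 := by positivity
    have r4 : 0 < dt (P a) (P b) (P c) * Λ := by positivity
    linarith
  apply geo_fconvex h y
  · intro a b hab
    by_cases ha : P a = uv
    · have hb := inj b a (Ne.symm hab) ha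
      rw [ha, dt_uv_left, hcry]
      exact neg_ne_zero.2 (hd b hb)
    by_cases hb : P b = uv
    · rw [hb, dt_uv_mid, hcry]
      exact hd a ha
    intro h0
    apply hΛ
    refine ⟨(a, b), ?_⟩
    have hc0 := hcr a b hab ha hb
    simp only
    rw [div_eq_iff hc0]
    simp only [dt, hy, yv0, yv1, yv2] at h0
    unfold cr
    linarith
  · intro a b c hab hac hbc hd0 h1 h2 h3 x w _ hx hw
    have kx := key a b c hab hac hbc hd0 h1 h2 h3 x
    have kw := key a b c hab hac hbc hd0 h1 h2 h3 w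
    unfold Two at kx kw
    rcases kx with kx | kx | kx | ⟨x1, x2, x3⟩
    · rcases kw with kw | kw | kw | ⟨w1, w2, w3⟩
      · exact Or.inl ⟨kx.1, kw.1⟩
      · exact Or.inr (Or.inl ⟨kx.2, kw.1⟩)
      · exact Or.inl ⟨kx.1, kw.2⟩
      · exfalso; rcases hw with hw | hw | hw <;> linarith
    · rcases kw with kw | kw | kw | ⟨w1, w2, w3⟩
      · exact Or.inr (Or.inl ⟨kx.1, kw.2⟩)
      · exact Or.inr (Or.inl ⟨kx.1, kw.1⟩)
      · exact Or.inr (Or.inr ⟨kx.2, kw.1⟩)
      · exfalso; rcases hw with hw | hw | hw <;> linarith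
    · rcases kw with kw | kw | kw | ⟨w1, w2, w3⟩
      · exact Or.inl ⟨kx.2, kw.1⟩
      · exact Or.inr (Or.inr ⟨kx.1, kw.2⟩)
      · exact Or.inl ⟨kx.2, kw.2⟩
      · exfalso; rcases hw with hw | hw | hw <;> linarith
    · exfalso; rcases hx with hx | hx | hx <;> linarith

/-- subdrawings with at most two vertices that miss a vertex are f-convex -/
theorem small_fconvex {n : ℕ} (D : GoodDrawing (Fin n)) (J : Finset (Fin n)) (w : Fin n)
    (hw : w ∉ J) (hJ : J.card ≤ 2) : (D.restrict J).IsFConvex := by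
  have hno : ∀ T : Finset J, T.card ≠ 3 := by
    intro T hT
    have h1 : T.card ≤ Fintype.card J := Finset.card_le_univ T
    rw [Fintype.card_coe] at h1
    omega
  refine ⟨fun T hT => absurd hT (hno T), connectedComponentIn
    ((D.restrict J).image Set.univ)ᶜ (D.pt w), ⟨D.pt w, ?_, rfl⟩, fun T hT => absurd hT (hno T)⟩
  rintro ⟨u, -, v, -, huv, hz⟩
  have h1 : (u : Fin n) ≠ v := fun e => huv (Subtype.ext e)
  exact D.avoid u v w h1 (fun e => hw (e ▸ u.2)) (fun e => hw (e ▸ v.2)) hz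

end Pool.Agent.Y765.FC
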