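import Pool.Agent.Y765.FC.Draw

/-!
# The two perturbation patterns (even and odd length)
-/

set_option autoImplicit false

namespace Pool.Agent.Y765.FC

open Pool.Agent.H858FC Set

/-- even length: the odd points are raised -/
noncomputable def d0 (j : ℤ) : ℝ := if j % 2 = 1 then 3 / 2 else 0

theorem d0_odd {j : ℤ} (h : j % 2 = 1) : d0 j = 3 / 2 := by unfold d0; rw [if_pos h]

theorem d0_even {j : ℤ} (h : ¬ j % 2 = 1) : d0 j = 0 := by unfold d0; rw [if_neg h]

theorem d0_nn (j : ℤ) : 0 ≤ d0 j := by unfold d0; split_ifs <;> norm_num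

theorem d0_le (j : ℤ) : d0 j ≤ 3 / 2 := by unfold d0; split_ifs <;> norm_num

/-- lower bound of the defect -/
theorem DD_ge {δ : ℤ → ℝ} {p r q : ℤ} (h1 : p < r) (h2 : r < q) (hp : 0 ≤ δ p) (hq : 0 ≤ δ q) :
    ((q : ℝ) - p) * (((r : ℝ) - p) * ((q : ℝ) - r) - δ r) ≤ DD δ p r q := by
  have k1 : (p : ℝ) < r := by exact_mod_cast h1
  have k2 : (r : ℝ) < q := by exact_mod_cast h2
  unfold DD
  have m1 : 0 ≤ ((r : ℝ) - p) * δ q := mul_nonneg (by linarith) hq
  have m2 : 0 ≤ ((q : ℝ) - r) * δ p := mul_nonneg (by linarith) hp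
  nlinarith

theorem DD_pos {δ : ℤ → ℝ} {p r q : ℤ} (h1 : p < r) (h2 : r < q) (hp : 0 ≤ δ p) (hq : 0 ≤ δ q)
    (m : ℤ) (hm : m ≤ (r - p) * (q - r)) (hr : δ r < m) : 0 < DD δ p r q := by
  refine lt_of_lt_of_le ?_ (DD_ge h1 h2 hp hq)
  have k1 : (p : ℝ) < q := by exact_mod_cast h1.trans h2
  have k3 : (m : ℝ) ≤ ((r : ℝ) - p) * ((q : ℝ) - r) := by exact_mod_cast hm
  apply mul_pos <;> linarith

theorem prod_two {a b : ℤ} (ha : 1 ≤ a) (hb : 1 ≤ b) (h : ¬ (a = 1 ∧ b = 1)) : 2 ≤ a * b := by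
  rcases eq_or_lt_of_le ha with rfl | ha
  · rw [one_mul]; omega
  · nlinarith

/-- caps of the even pattern -/
theorem d0_caps {p r q : ℤ} (h1 : p < r) (h2 : r < q) (hD : DD d0 p r q ≤ 0) :
    p = r - 1 ∧ q = r + 1 ∧ r % 2 = 1 := by
  by_cases hr : r % 2 = 1
  · by_contra hcon
    have h3 : 2 ≤ (r - p) * (q - r) := prod_two (by omega) (by omega) (fun e => hcon (by omega))
    have := DD_pos h1 h2 (d0_nn p) (d0_nn q) 2 h3
      (lt_of_le_of_lt (d0_le r) (by norm_num))
    linarith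
  · exfalso
    have h3 : 1 ≤ (r - p) * (q - r) := by nlinarith
    have := DD_pos h1 h2 (d0_nn p) (d0_nn q) 1 h3 (by rw [d0_even hr]; norm_num)
    linarith

theorem d0_cap_val {r : ℤ} (hr : r % 2 = 1) : DD d0 (r - 1) r (r + 1) = -1 := by
  unfold DD
  rw [d0_odd hr, d0_even (j := r - 1) (by omega), d0_even (j := r + 1) (by omega)]
  push_cast
  ring

theorem chain_even {L : ℤ} (hL : 4 ≤ L) (he : L % 2 = 0) : Chain L d0 where
  L4 := hL
  nn j _ _ := d0_nn j
  le j _ _ := (d0_le j).trans (by norm_num)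
  z0 := d0_even (by norm_num)
  zL := d0_even (by omega)
  gen p r q _ h1 h2 _ := by
    intro h0
    obtain ⟨rfl, rfl, hr⟩ := d0_caps h1 h2 h0.le
    rw [d0_cap_val hr] at h0
    norm_num at h0
  cov g h0 h1 := by
    rcases Int.emod_two_eq_zero_or_one g with hg | hg
    · refine ⟨g, g + 1, g + 2, h0, le_rfl, by omega, by omega, by omega, by omega,
        d0_even (by omega), d0_even (by omega), ?_⟩
      have := d0_cap_val (r := g + 1) (by omega)
      have e1 : g + 1 - 1 = g := by ring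
      have e2 : g + 1 + 1 = g + 2 := by ring
      rw [e1, e2] at this
      rw [this]; norm_num
    · refine ⟨g - 1, g, g + 1, by omega, by omega, by omega, by omega, by omega, by omega,
        d0_even (by omega), d0_even (by omega), ?_⟩
      rw [d0_cap_val hg]; norm_num
  crit w h0 h1 := by
    refine ⟨w, h0, h1, ?_⟩
    intro p r q _ k1 k2 _ k3 k4 hD
    obtain ⟨e1, e2, e3⟩ := d0_caps k3 k4 hD
    omega

/-- odd length: the points `2, 3` are raised by `7/2` and the even points from `6` on by `3/2` -/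
noncomputable def d1 (j : ℤ) : ℝ :=
  if j = 2 ∨ j = 3 then 7 / 2 else if 6 ≤ j ∧ j % 2 = 0 then 3 / 2 else 0

theorem d1_a {j : ℤ} (h : j = 2 ∨ j = 3) : d1 j = 7 / 2 := by unfold d1; rw [if_pos h]

theorem d1_b {j : ℤ} (h : 6 ≤ j ∧ j % 2 = 0) : d1 j = 3 / 2 := by
  unfold d1; rw [if_neg (by omega), if_pos h]

theorem d1_c {j : ℤ} (h : ¬ (j = 2 ∨ j = 3)) (h' : ¬ (6 ≤ j ∧ j % 2 = 0)) : d1 j = 0 := by
  unfold d1; rw [if_neg h, if_neg h']

theorem d1_nn (j : ℤ) : 0 ≤ d1 j := by unfold d1; split_ifs <;> norm_num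

theorem d1_le (j : ℤ) : d1 j ≤ 7 / 2 := by unfold d1; split_ifs <;> norm_num

/-- all possible caps of the odd pattern -/
theorem d1_caps {p r q : ℤ} (h0 : 0 ≤ p) (h1 : p < r) (h2 : r < q) (hD : DD d1 p r q ≤ 0) :
    (p = r - 1 ∧ q = r + 1 ∧ 6 ≤ r ∧ r % 2 = 0 ∧ DD d1 p r q = -1) ∨
    (p = 0 ∧ r = 3 ∧ q = 4 ∧ DD d1 p r q = -2) ∨ (p = 1 ∧ r = 2 ∧ q = 5 ∧ DD d1 p r q = -2) ∨
    (1 ≤ p ∧ q ≤ 4 ∧ DD d1 p r q ≠ 0) := by
  by_cases hr : r = 2 ∨ r = 3
  · -- small cases
    have h4 : (r - p) * (q - r) < 4 := by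
      by_contra hcon
      have := DD_pos h1 h2 (d1_nn p) (d1_nn q) 4 (not_lt.1 hcon)
        (lt_of_le_of_lt (d1_le r) (by norm_num))
      linarith
    have v0 : d1 0 = 0 := d1_c (by norm_num) (by norm_num)
    have v1 : d1 1 = 0 := d1_c (by norm_num) (by norm_num)
    have v2 : d1 2 = 7 / 2 := d1_a (by norm_num)
    have v3 : d1 3 = 7 / 2 := d1_a (by norm_num)
    have v4 : d1 4 = 0 := d1_c (by norm_num) (by norm_num)
    have v5 : d1 5 = 0 := d1_c (by norm_num) (by norm_num)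
    have v6 : d1 6 = 3 / 2 := d1_b (by norm_num)
    have hq : q ≤ 6 := by
      rcases hr with rfl | rfl <;> nlinarith
    rcases hr with rfl | rfl
    · have hp : p = 0 ∨ p = 1 := by omega
      have hq' : q = 3 ∨ q = 4 ∨ q = 5 ∨ q = 6 := by omega
      rcases hp with rfl | rfl <;> rcases hq' with rfl | rfl | rfl | rfl <;>
        norm_num at h4 <;> unfold DD at hD ⊢ <;> simp only [v0, v1, v2, v3, v4, v5, v6] at hD ⊢ <;>
        first | (exfalso; norm_num at hD; done) | norm_num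
    · have hp : p = 0 ∨ p = 1 ∨ p = 2 := by omega
      have hq' : q = 4 ∨ q = 5 ∨ q = 6 := by omega
      rcases hp with rfl | rfl | rfl <;> rcases hq' with rfl | rfl | rfl <;>
        norm_num at h4 <;> unfold DD at hD ⊢ <;> simp only [v0, v1, v2, v3, v4, v5, v6] at hD ⊢ <;>
        first | (exfalso; norm_num at hD; done) | norm_num
  · by_cases hr' : 6 ≤ r ∧ r % 2 = 0
    · by_cases hcon : p = r - 1 ∧ q = r + 1
      · left
        obtain ⟨rfl, rfl⟩ := hcon
        refine ⟨rfl, rfl, hr'.1, hr'.2, ?_⟩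
        unfold DD
        rw [d1_b hr', d1_c (j := r - 1) (by omega) (by omega),
          d1_c (j := r + 1) (by omega) (by omega)]
        push_cast
        ring
      · exfalso
        have h3 : 2 ≤ (r - p) * (q - r) :=
          prod_two (by omega) (by omega) (fun e => hcon (by omega))
        have := DD_pos h1 h2 (d1_nn p) (d1_nn q) 2 h3 (by rw [d1_b hr']; norm_num)
        linarith
    · exfalso
      have h3 : 1 ≤ (r - p) * (q - r) := by nlinarith
      have := DD_pos h1 h2 (d1_nn p) (d1_nn q) 1 h3 (by rw [d1_c hr hr']; norm_num)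
      linarith

theorem chain_odd {L : ℤ} (hL : 5 ≤ L) (ho : L % 2 = 1) : Chain L d1 where
  L4 := by omega
  nn j _ _ := d1_nn j
  le j _ _ := d1_le j
  z0 := d1_c (by norm_num) (by norm_num)
  zL := d1_c (by omega) (by omega)
  gen p r q h0 h1 h2 _ := by
    intro h3
    rcases d1_caps h0 h1 h2 h3.le with ⟨-, -, -, -, e⟩ | ⟨-, -, -, e⟩ | ⟨-, -, -, e⟩ | ⟨-, -, e⟩
    · rw [h3] at e; norm_num at e
    · rw [h3] at e; norm_num at e
    · rw [h3] at e; norm_num at e
    · exact e h3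
  cov g h0 h1 := by
    rcases lt_or_ge g 4 with g4 | g4
    · refine ⟨0, 3, 4, le_rfl, h0, g4, by omega, by norm_num, by norm_num,
        d1_c (by norm_num) (by norm_num), d1_c (by norm_num) (by norm_num), ?_⟩
      unfold DD
      rw [d1_c (j := 0) (by norm_num) (by norm_num), d1_a (j := 3) (by norm_num),
        d1_c (j := 4) (by norm_num) (by norm_num)]
      norm_num
    rcases eq_or_lt_of_le g4 with rfl | g5
    · refine ⟨1, 2, 5, by norm_num, by norm_num, by norm_num, hL, by norm_num, by norm_num,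
        d1_c (by norm_num) (by norm_num), d1_c (by norm_num) (by norm_num), ?_⟩
      unfold DD
      rw [d1_c (j := 1) (by norm_num) (by norm_num), d1_a (j := 2) (by norm_num),
        d1_c (j := 5) (by norm_num) (by norm_num)]
      norm_num
    rcases Int.emod_two_eq_zero_or_one g with hg | hg
    · refine ⟨g - 1, g, g + 1, by omega, by omega, by omega, by omega, by omega, by omega,
        d1_c (by omega) (by omega), d1_c (by omega) (by omega), ?_⟩
      unfold DD
      rw [d1_b (j := g) ⟨by omega, hg⟩, d1_c (j := g - 1) (by omega) (by omega),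
        d1_c (j := g + 1) (by omega) (by omega)]
      push_cast
      nlinarith
    · refine ⟨g, g + 1, g + 2, by omega, by omega, by omega, by omega, by omega, by omega,
        d1_c (by omega) (by omega), d1_c (by omega) (by omega), ?_⟩
      unfold DD
      rw [d1_b (j := g + 1) ⟨by omega, by omega⟩, d1_c (j := g) (by omega) (by omega),
        d1_c (j := g + 2) (by omega) (by omega)]
      push_cast
      nlinarith
  crit w h0 h1 := by
    by_cases w0 : w = 0 ∨ w = 3 ∨ w = 4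
    · refine ⟨0, le_rfl, by omega, ?_⟩
      intro p r q k0 k1 k2 _ k3 k4 hD
      rcases d1_caps k0 k3 k4 hD with e | e | e | e <;> omega
    by_cases w1 : w = 1 ∨ w = 2 ∨ w = 5
    · refine ⟨4, by norm_num, by omega, ?_⟩
      intro p r q k0 k1 k2 _ k3 k4 hD
      rcases d1_caps k0 k3 k4 hD with e | e | e | e <;> omega
    refine ⟨w, h0, h1, ?_⟩
    intro p r q k0 k1 k2 _ k3 k4 hD
    rcases d1_caps k0 k3 k4 hD with e | e | e | e <;> omega

theorem exists_chain (N : ℕ) (hN : 4 ≤ N) : ∃ δ : ℤ → ℝ, Chain N δ := by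
  rcases Int.emod_two_eq_zero_or_one (N : ℤ) with h | h
  · exact ⟨d0, chain_even (by omega) h⟩
  · exact ⟨d1, chain_odd (by omega) h⟩

/-- minimal drawings that are not f-convex -/
theorem exists_minimal (n : ℕ) (hn : 9 ≤ n) : ∃ D : GoodDrawing (Fin n), D.IsHConvex ∧
    ¬ D.IsFConvex ∧ ∀ J : Finset (Fin n), J ≠ Finset.univ → (D.restrict J).IsFConvex := by
  obtain ⟨N, rfl⟩ : ∃ N, n = N + 5 := ⟨n - 5, by omega⟩
  obtain ⟨δ, h⟩ := exists_chain N (by omega)
  exact ⟨DR h, DR_hconvex h, DR_not_fconvex h, DR_sub h⟩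

end Pool.Agent.Y765.FC
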